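import Pool.Agent.Helper42.FR.Stmts

/-! # FR: the row FO (finite pieces of the Houghton group on three rays) -/

set_option autoImplicit false

namespace Pool.Agent.Helper39.FR

open Pool.Agent.Helper42.FR

/-- the shift of the line, fixing the ray -/
def SS : Equiv.Perm Om where
  toFun
    | .inl j => .inl (j + 1)
    | .inr k => .inr k
  invFun
    | .inl j => .inl (j - 1)
    | .inr k => .inr k
  left_inv := by
    rintro (j | k)
    · simp
    · rfl
  right_inv := by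
    rintro (j | k)
    · simp
    · rfl

/-- the shift from the ray to the negative half line -/
def TT : Equiv.Perm Om where
  toFun
    | .inl j => if j ≤ 0 then .inl (j - 1) else .inl j
    | .inr 0 => .inl 0
    | .inr (k + 1) => .inr k
  invFun
    | .inl j => if j ≤ -1 then .inl (j + 1) else if j = 0 then .inr 0 else .inl j
    | .inr k => .inr (k + 1)
  left_inv := by
    rintro (j | k)
    · by_cases h : j ≤ 0
      · simp only [if_pos h]
        rw [if_pos (by omega)]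
        congr 1
        omega
      · simp only [if_neg h]
        rw [if_neg (by omega), if_neg (by omega)]
    · cases k with
      | zero => simp
      | succ k => rfl
  right_inv := by
    rintro (j | k)
    · by_cases h : j ≤ -1
      · simp only [if_pos h]
        rw [if_pos (by omega)]
        congr 1
        omega
      · by_cases h0 : j = 0
        · simp [h0]
        · simp only [if_neg h, if_neg h0]
          rw [if_neg (by omega)]
    · rfl

theorem SS_inl (j : ℤ) : SS (.inl j) = .inl (j + 1) := rfl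
theorem SS_inr (k : ℕ) : SS (.inr k) = .inr k := rfl
theorem SSi_inl (j : ℤ) : SS⁻¹ (.inl j) = .inl (j - 1) := rfl
theorem SSi_inr (k : ℕ) : SS⁻¹ (.inr k) = .inr k := rfl
theorem TT_neg {j : ℤ} (h : j ≤ 0) : TT (.inl j) = .inl (j - 1) := if_pos h
theorem TT_pos {j : ℤ} (h : 1 ≤ j) : TT (.inl j) = .inl j := if_neg (by omega)
theorem TT_zero : TT (.inr 0) = .inl 0 := rfl
theorem TT_succ (k : ℕ) : TT (.inr (k + 1)) = .inr k := rfl
theorem TTi_neg {j : ℤ} (h : j ≤ -1) : TT⁻¹ (.inl j) = .inl (j + 1) := if_pos h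
theorem TTi_zero : TT⁻¹ (.inl 0) = .inr 0 := rfl
theorem TTi_pos {j : ℤ} (h : 1 ≤ j) : TT⁻¹ (.inl j) = .inl j := by
  have e : TT⁻¹ (.inl j) = if j ≤ -1 then .inl (j + 1) else if j = 0 then .inr 0 else .inl j := rfl
  rw [e, if_neg (by omega), if_neg (by omega)]
theorem TTi_inr (k : ℕ) : TT⁻¹ (.inr k) = .inr (k + 1) := rfl

theorem SS_pow_inl (i : ℕ) (m : ℤ) : (SS ^ i) (.inl m) = .inl (m + i) := by
  induction i with
  | zero => simp
  | succ i ih =>
    rw [pow_succ', Equiv.Perm.mul_apply, ih, SS_inl]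
    congr 1
    push_cast
    ring

theorem SS_pow_inr (i k : ℕ) : (SS ^ i) (.inr k) = .inr k := by
  induction i with
  | zero => simp
  | succ i ih => rw [pow_succ', Equiv.Perm.mul_apply, ih, SS_inr]

theorem TT_pow_pos (j : ℕ) {m : ℤ} (h : 1 ≤ m) : (TT ^ j) (.inl m) = .inl m := by
  induction j with
  | zero => simp
  | succ j ih => rw [pow_succ', Equiv.Perm.mul_apply, ih, TT_pos h]

theorem TT_pow_neg (j : ℕ) {m : ℤ} (h : m ≤ 0) : (TT ^ j) (.inl m) = .inl (m - j) := by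
  induction j with
  | zero => simp
  | succ j ih =>
    rw [pow_succ', Equiv.Perm.mul_apply, ih, TT_neg (by omega)]
    congr 1
    push_cast
    ring

theorem TT_pow_inr (j : ℕ) : ∀ k : ℕ, j ≤ k → (TT ^ j) (.inr k) = .inr (k - j) := by
  induction j with
  | zero => intro k _; simp
  | succ j ih =>
    intro k hk
    rw [pow_succ', Equiv.Perm.mul_apply, ih k (by omega)]
    obtain ⟨l, hl⟩ : ∃ l, k - j = l + 1 := ⟨k - j - 1, by omega⟩
    rw [hl, TT_succ]
    congr 1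
    omega

/-- the relation -/
theorem rel4 : SS⁻¹ * (TT * (SS * (TT⁻¹ * (SS * TT)))) =
    SS * (TT * (SS⁻¹ * (TT * (SS * TT⁻¹)))) := by
  ext w
  simp only [Equiv.Perm.mul_apply]
  rcases w with j | k
  · rcases lt_trichotomy j 0 with h | h | h
    · rw [TT_neg (by omega), SS_inl, TTi_neg (j := j) (by omega)]
      rw [show j - 1 + 1 = j by ring, TTi_neg (j := j) (by omega), SS_inl]
      by_cases h1 : j = -1
      · subst h1
        rw [show (-1 : ℤ) + 1 + 1 = 1 by norm_num, TT_pos (j := 1) le_rfl, SSi_inl,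
          show (1 : ℤ) - 1 = 0 by norm_num, TT_neg (j := 0) le_rfl, SS_inl]
        rfl
      · rw [TT_neg (j := j + 1 + 1) (by omega), SSi_inl, TT_neg (by omega), SS_inl]
        congr 1
        omega
    · subst h
      rw [TTi_zero, SS_inr, TT_zero, SSi_inl, TT_neg le_rfl, SS_inl,
        show (0 : ℤ) - 1 + 1 = 0 by norm_num, TTi_zero, SS_inr, TT_zero, SSi_inl,
        TT_neg (j := 0 - 1) (by norm_num), SS_inl]
      rfl
    · rw [TT_pos (by omega), SS_inl, TTi_pos (j := j + 1) (by omega), SS_inl,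
        TT_pos (by omega), SSi_inl, TTi_pos (by omega), SS_inl, TT_pos (by omega), SSi_inl,
        TT_pos (by omega), SS_inl]
      congr 1
      omega
  · rw [TTi_inr, SS_inr, TT_succ, SSi_inr]
    cases k with
    | zero =>
      rw [TT_zero, SS_inl, TTi_pos (by norm_num), SS_inl, TT_pos (by norm_num), SSi_inl]
      rfl
    | succ k => rw [TT_succ, SS_inr, TTi_inr, SS_inr, TT_succ, SSi_inr]

/-- the window -/
noncomputable def WS (n : ℕ) : Finset Om := (Finset.Icc (-(n : ℤ)) 0).disjSum (Finset.range n)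

theorem supp {n : ℕ} {i j : ℕ} (hi : i ≤ n) (hj : j + 1 ≤ n) {w : Om} (hw : w ∉ WS n) :
    TT ((SS ^ i) ((TT ^ j) w)) = (SS ^ i) ((TT ^ (j + 1)) w) := by
  rcases w with m | k
  · unfold WS at hw
    rw [Finset.inl_mem_disjSum, Finset.mem_Icc] at hw
    by_cases h : 1 ≤ m
    · rw [TT_pow_pos _ h, TT_pow_pos _ h, SS_pow_inl, TT_pos (by omega)]
    · have hm : m < -(n : ℤ) := by omega
      rw [TT_pow_neg _ (by omega), TT_pow_neg _ (by omega), SS_pow_inl, SS_pow_inl,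
        TT_neg (by omega)]
      congr 1
      push_cast
      ring
  · unfold WS at hw
    rw [Finset.inr_mem_disjSum, Finset.mem_range] at hw
    rw [TT_pow_inr _ _ (by omega), TT_pow_inr _ _ (by omega), SS_pow_inr, SS_pow_inr]
    obtain ⟨l, hl⟩ : ∃ l, k - j = l + 1 := ⟨k - j - 1, by omega⟩
    rw [hl, TT_succ]
    congr 1
    omega

/-- permutations of the window -/
abbrev PW (n : ℕ) : Type := Equiv.Perm {w : Om // w ∈ WS n}

theorem exc {n : ℕ} {i j : ℕ} (hi : i ≤ n) (hj : j + 1 ≤ n) :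
    ∃ c : PW n, SS ^ i * TT ^ (j + 1) * Equiv.Perm.ofSubtype c = TT * (SS ^ i * TT ^ j) := by
  have h1 : ∀ w, ¬ w ∈ WS n → ((SS ^ i * TT ^ (j + 1))⁻¹ * (TT * (SS ^ i * TT ^ j))) w = w := by
    intro w hw
    have := supp hi hj hw
    rw [Equiv.Perm.mul_apply, Equiv.Perm.mul_apply, Equiv.Perm.mul_apply, this,
      ← Equiv.Perm.mul_apply]
    exact Equiv.symm_apply_apply (SS ^ i * TT ^ (j + 1)) w
  obtain ⟨c, hc⟩ := (Equiv.Perm.subtypeEquivSubtypePerm (fun w => w ∈ WS n)).surjective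
    ⟨_, h1⟩
  refine ⟨c, ?_⟩
  have h2 : Equiv.Perm.ofSubtype c =
      (SS ^ i * TT ^ (j + 1))⁻¹ * (TT * (SS ^ i * TT ^ j)) := congrArg Subtype.val hc
  rw [h2, mul_inv_cancel_left]

/-- the chosen correction -/
noncomputable def cc (n i j : ℕ) : PW n :=
  if h : i ≤ n ∧ j + 1 ≤ n then (exc h.1 h.2).choose else 1

theorem cc_spec {n i j : ℕ} (hi : i ≤ n) (hj : j + 1 ≤ n) :
    SS ^ i * TT ^ (j + 1) * Equiv.Perm.ofSubtype (cc n i j) = TT * (SS ^ i * TT ^ j) := by
  unfold cc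
  rw [dif_pos ⟨hi, hj⟩]
  exact (exc hi hj).choose_spec

/-- the first permutation -/
noncomputable def sG (n : ℕ) : Equiv.Perm (Fin (n + 1) × Fin (n + 1) × PW n) where
  toFun g := (g.1 + 1, g.2)
  invFun g := (g.1 - 1, g.2)
  left_inv := by
    rintro ⟨a, b⟩
    simp
  right_inv := by
    rintro ⟨a, b⟩
    simp

/-- the second permutation -/
noncomputable def tG (n : ℕ) : Equiv.Perm (Fin (n + 1) × Fin (n + 1) × PW n) where
  toFun g := (g.1, g.2.1 + 1, cc n g.1 g.2.1 * g.2.2)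
  invFun g := (g.1, g.2.1 - 1, (cc n g.1 ((g.2.1 - 1 : Fin (n + 1)) : ℕ))⁻¹ * g.2.2)
  left_inv := by
    rintro ⟨a, b, c⟩
    simp
  right_inv := by
    rintro ⟨a, b, c⟩
    simp

/-- the group element -/
noncomputable def Ph (n : ℕ) (g : Fin (n + 1) × Fin (n + 1) × PW n) : Equiv.Perm Om :=
  SS ^ (g.1 : ℕ) * TT ^ (g.2.1 : ℕ) * Equiv.Perm.ofSubtype g.2.2

/-- position and group element -/
def PP (n : ℕ) (g : Fin (n + 1) × Fin (n + 1) × PW n) (a b : ℕ) (f : Equiv.Perm Om) : Prop :=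
  (g.1 : ℕ) = a ∧ (g.2.1 : ℕ) = b ∧ Ph n g = f

theorem PP_s {n : ℕ} {g : Fin (n + 1) × Fin (n + 1) × PW n} {a b : ℕ} {f : Equiv.Perm Om}
    (h : PP n g a b f) (ha : a + 1 ≤ n) : PP n (sG n g) (a + 1) b (SS * f) := by
  obtain ⟨h1, h2, h3⟩ := h
  have e : ((sG n g).1 : ℕ) = a + 1 := by
    have : (g.1 + 1 : Fin (n + 1)).val = (g.1 : ℕ) + 1 :=
      Fin.val_add_one_of_lt (Fin.lt_def.2 (by rw [Fin.val_last]; omega))
    rw [h1] at this
    exact this
  refine ⟨e, h2, ?_⟩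
  have e2 : (sG n g).2 = g.2 := rfl
  unfold Ph at h3 ⊢
  rw [e, e2, ← h3, h1, pow_succ']
  simp only [mul_assoc]

theorem PP_t {n : ℕ} {g : Fin (n + 1) × Fin (n + 1) × PW n} {a b : ℕ} {f : Equiv.Perm Om}
    (h : PP n g a b f) (hb : b + 1 ≤ n) : PP n (tG n g) a (b + 1) (TT * f) := by
  obtain ⟨h1, h2, h3⟩ := h
  have e : ((tG n g).2.1 : ℕ) = b + 1 := by
    have : (g.2.1 + 1 : Fin (n + 1)).val = (g.2.1 : ℕ) + 1 :=
      Fin.val_add_one_of_lt (Fin.lt_def.2 (by rw [Fin.val_last]; omega))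
    rw [h2] at this
    exact this
  refine ⟨h1, e, ?_⟩
  have e1 : ((tG n g).1 : ℕ) = a := h1
  have e2 : (tG n g).2.2 = cc n g.1 g.2.1 * g.2.2 := rfl
  have ha : a ≤ n := by
    have := g.1.isLt
    omega
  have key := cc_spec ha hb
  unfold Ph at h3 ⊢
  rw [e, e1, e2, h1, h2, map_mul, ← mul_assoc, key, ← h3, h1, h2]
  simp only [mul_assoc]

theorem PP_si {n : ℕ} {g : Fin (n + 1) × Fin (n + 1) × PW n} {a b : ℕ} {f : Equiv.Perm Om}
    (h : PP n g (a + 1) b f) : PP n ((sG n)⁻¹ g) a b (SS⁻¹ * f) := by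
  obtain ⟨h1, h2, h3⟩ := h
  have hlt := g.1.isLt
  have e : (((sG n)⁻¹ g).1 : ℕ) = a := by
    have hne : g.1 ≠ 0 := by
      intro h0
      rw [h0] at h1
      simp at h1
    have : (g.1 - 1 : Fin (n + 1)).val = (g.1 : ℕ) - 1 := Fin.val_sub_one_of_ne_zero hne
    rw [h1] at this
    exact this
  have q : PP n ((sG n)⁻¹ g) a b (Ph n ((sG n)⁻¹ g)) := ⟨e, h2, rfl⟩
  have q2 := PP_s q (by omega)
  rw [show sG n ((sG n)⁻¹ g) = g from Equiv.apply_symm_apply (sG n) g] at q2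
  refine ⟨e, h2, ?_⟩
  rw [← h3, q2.2.2, inv_mul_cancel_left]

theorem PP_ti {n : ℕ} {g : Fin (n + 1) × Fin (n + 1) × PW n} {a b : ℕ} {f : Equiv.Perm Om}
    (h : PP n g a (b + 1) f) : PP n ((tG n)⁻¹ g) a b (TT⁻¹ * f) := by
  obtain ⟨h1, h2, h3⟩ := h
  have hlt := g.2.1.isLt
  have e : (((tG n)⁻¹ g).2.1 : ℕ) = b := by
    have hne : g.2.1 ≠ 0 := by
      intro h0
      rw [h0] at h2
      simp at h2
    have : (g.2.1 - 1 : Fin (n + 1)).val = (g.2.1 : ℕ) - 1 := Fin.val_sub_one_of_ne_zero hne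
    rw [h2] at this
    exact this
  have q : PP n ((tG n)⁻¹ g) a b (Ph n ((tG n)⁻¹ g)) := ⟨h1, e, rfl⟩
  have q2 := PP_t q (by omega)
  rw [show tG n ((tG n)⁻¹ g) = g from Equiv.apply_symm_apply (tG n) g] at q2
  refine ⟨h1, e, ?_⟩
  rw [← h3, q2.2.2, inv_mul_cancel_left]

theorem PP_inj {n : ℕ} {g h : Fin (n + 1) × Fin (n + 1) × PW n} {a b : ℕ} {f : Equiv.Perm Om}
    (hg : PP n g a b f) (hh : PP n h a b f) : g = h := by
  obtain ⟨g1, g2, g3⟩ := hg
  obtain ⟨h1, h2, h3⟩ := hh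
  have e1 : g.1 = h.1 := Fin.ext (g1.trans h1.symm)
  have e2 : g.2.1 = h.2.1 := Fin.ext (g2.trans h2.symm)
  have e3 : g.2.2 = h.2.2 := by
    apply Equiv.Perm.ofSubtype_injective
    have : Ph n g = Ph n h := g3.trans h3.symm
    unfold Ph at this
    rw [e1, e2] at this
    exact mul_left_cancel this
  exact Prod.ext e1 (Prod.ext e2 e3)

/-- the value of the point -/
noncomputable def val (n : ℕ) (g : Fin (n + 1) × Fin (n + 1) × PW n) : Om := (Ph n g)⁻¹ (.inl 0)

theorem val_of {n : ℕ} {g : Fin (n + 1) × Fin (n + 1) × PW n} {a b : ℕ} {f : Equiv.Perm Om}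
    (h : PP n g a b f) : val n g = f⁻¹ (.inl 0) := by
  unfold val
  rw [h.2.2]

/-- the bad set -/
noncomputable def badS (n : ℕ) : Finset (Fin (n + 1) × Fin (n + 1) × PW n) :=
  ({0, ⟨n - 1, by omega⟩, Fin.last n} : Finset (Fin (n + 1))) ×ˢ Finset.univ ∪
  Finset.univ ×ˢ (({0, Fin.last n} : Finset (Fin (n + 1))) ×ˢ Finset.univ)

theorem not_bad {n : ℕ} {g : Fin (n + 1) × Fin (n + 1) × PW n} (h : g ∉ badS n) :
    (∃ a, (g.1 : ℕ) = a + 1 ∧ a + 3 ≤ n) ∧ (∃ b, (g.2.1 : ℕ) = b + 1 ∧ b + 2 ≤ n) := by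
  unfold badS at h
  rw [Finset.mem_union, not_or, Finset.mem_product, Finset.mem_product, Finset.mem_product] at h
  obtain ⟨h1, h2⟩ := h
  have a1 : g.1 ∉ ({0, ⟨n - 1, by omega⟩, Fin.last n} : Finset (Fin (n + 1))) :=
    fun hh => h1 ⟨hh, Finset.mem_univ _⟩
  have a2 : g.2.1 ∉ ({0, Fin.last n} : Finset (Fin (n + 1))) :=
    fun hh => h2 ⟨Finset.mem_univ _, hh, Finset.mem_univ _⟩
  simp only [Finset.mem_insert, Finset.mem_singleton, not_or, Fin.ext_iff, Fin.val_zero,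
    Fin.val_last] at a1 a2
  have := g.1.isLt
  have := g.2.1.isLt
  exact ⟨⟨(g.1 : ℕ) - 1, by omega, by omega⟩, ⟨(g.2.1 : ℕ) - 1, by omega, by omega⟩⟩

theorem bad_card (N : ℕ) :
    (badS (5 * N)).card * N ≤ Fintype.card (Fin (5 * N + 1) × Fin (5 * N + 1) × PW (5 * N)) := by
  have c1 : ({0, ⟨5 * N - 1, by omega⟩, Fin.last (5 * N)} : Finset (Fin (5 * N + 1))).card ≤ 3 :=
    Finset.card_le_three
  have c2 : ({0, Fin.last (5 * N)} : Finset (Fin (5 * N + 1))).card ≤ 2 := Finset.card_le_two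
  have c3 : (badS (5 * N)).card ≤ 3 * ((5 * N + 1) * Fintype.card (PW (5 * N))) +
      (5 * N + 1) * (2 * Fintype.card (PW (5 * N))) := by
    unfold badS
    refine (Finset.card_union_le _ _).trans (Nat.add_le_add ?_ ?_)
    · rw [Finset.card_product, Finset.card_univ, Fintype.card_prod, Fintype.card_fin]
      exact Nat.mul_le_mul_right _ c1
    · rw [Finset.card_product, Finset.card_product, Finset.card_univ, Finset.card_univ,
        Fintype.card_fin]
      exact Nat.mul_le_mul_left _ (Nat.mul_le_mul_right _ c2)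
  rw [Fintype.card_prod, Fintype.card_prod, Fintype.card_fin]
  generalize Fintype.card (PW (5 * N)) = W at *
  have c4 : (badS (5 * N)).card * N ≤ (5 * ((5 * N + 1) * W)) * N := by
    refine Nat.mul_le_mul_right _ (c3.trans (le_of_eq ?_))
    ring
  refine c4.trans ?_
  nlinarith [Nat.zero_le ((5 * N + 1) * W)]

theorem st_FO : ST_FO := by
  classical
  intro N hN
  refine ⟨Fin (5 * N + 1) × Fin (5 * N + 1) × PW (5 * N), ↥(Set.range (val (5 * N))),
    inferInstance, inferInstance, Fintype.ofFinite _, inferInstance, ⟨(0, 0, 1)⟩,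
    sG (5 * N), tG (5 * N), Set.rangeFactorization (val (5 * N)), badS (5 * N), bad_card N, ?_⟩
  intro g hg
  obtain ⟨⟨a, ha, ha'⟩, ⟨b, hb, hb'⟩⟩ := not_bad hg
  generalize 5 * N = n at *
  have key : ∀ u v : Fin (n + 1) × Fin (n + 1) × PW n,
      (Set.rangeFactorization (val n) u = Set.rangeFactorization (val n) v) ↔
        val n u = val n v := fun u v => ⟨fun h => congrArg Subtype.val h, fun h => Subtype.ext h⟩
  have p0 : PP n g (a + 1) (b + 1) (Ph n g) := ⟨ha, hb, rfl⟩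
  have ps := PP_s p0 (by omega)
  have psi := PP_si p0
  have pt := PP_t p0 (by omega)
  have pst := PP_s pt (by omega)
  have psst := PP_s pst (by omega)
  have psit := PP_si pt
  have pti := PP_ti p0
  have psti := PP_s pti (by omega)
  have ptsti := PP_t psti (by omega)
  have psitsti := PP_si ptsti
  have pssitsti := PP_si psitsti
  have l1 := PP_ti pst
  have l2 := PP_s l1 (by omega)
  have l3 := PP_t l2 (by omega)
  have l4 := PP_si l3
  have r1 := PP_t psitsti (by omega)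
  have r2 := PP_s r1 (by omega)
  have inj : ∀ u v : Om, (Ph n g)⁻¹ u = (Ph n g)⁻¹ v → u = v := fun u v h =>
    (Ph n g)⁻¹.injective h
  rw [Ne, Ne, Ne, key, key, key, key, key, key, key]
  rw [val_of p0, val_of ps, val_of psi, val_of pst, val_of psst, val_of psit, val_of pssitsti]
  simp only [mul_inv_rev, inv_inv, Equiv.Perm.mul_apply]
  have z1 : TT⁻¹ (SS⁻¹ (.inl 0)) = .inl 0 := by
    rw [SSi_inl, TTi_neg (j := 0 - 1) (by norm_num)]
    rfl
  have z2 : TT⁻¹ (SS⁻¹ (SS⁻¹ (.inl 0))) = SS⁻¹ (.inl 0) := by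
    rw [SSi_inl, SSi_inl, TTi_neg (j := 0 - 1 - 1) (by norm_num)]
    rfl
  have z3 : TT⁻¹ (SS (.inl 0)) = SS (.inl 0) := by
    rw [SS_inl, TTi_pos (j := 0 + 1) (by norm_num)]
  have z4 : TT (SS⁻¹ (TT⁻¹ (SS (SS (.inl 0))))) = SS (.inl 0) := by
    rw [SS_inl, SS_inl, TTi_pos (j := 0 + 1 + 1) (by norm_num), SSi_inl,
      show (0 : ℤ) + 1 + 1 - 1 = 0 + 1 by norm_num, TT_pos (j := 0 + 1) (by norm_num)]
  refine ⟨fun h => ?_, fun h => ?_, fun h => ?_, ?_, ?_, ?_, ?_, ?_⟩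
  · have := inj _ _ h
    rw [SSi_inl] at this
    simp at this
  · have := inj _ _ h
    rw [SS_inl] at this
    simp at this
  · have := inj _ _ h
    rw [SSi_inl, SS_inl] at this
    simp at this
  · rw [z1]
  · rw [z2]
  · rw [z3]
  · rw [z4]
  · have e := congrArg (fun f => f * Ph n g) rel4
    simp only [mul_assoc] at e
    rw [← e] at r2
    exact PP_inj l4 r2

end Pool.Agent.Helper39.FR
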