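import Pool.Agent.Helper51.FR.UPa

/-! # FR: the row UP (approximate solutions from the finite pieces) -/

set_option autoImplicit false

namespace Pool.Agent.Helper39.FR

open Matrix Pool.Agent.Helper81.Fmr Pool.Agent.Helper42.FR

universe u

section
variable {q : ℕ} {Y G : Type} [DecidableEq Y]

/-- a local permutation at two places -/
def lf (K : Equiv.Perm (Fin q × Fin q)) (a b : Y) (y : Y → Fin q) : Y → Fin q :=
  fun v => if v = a then (K (y a, y b)).1 else if v = b then (K (y a, y b)).2 else y v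

theorem lf_a (K : Equiv.Perm (Fin q × Fin q)) (a b : Y) (y : Y → Fin q) :
    lf K a b y a = (K (y a, y b)).1 := if_pos rfl

theorem lf_b (K : Equiv.Perm (Fin q × Fin q)) {a b : Y} (h : a ≠ b) (y : Y → Fin q) :
    lf K a b y b = (K (y a, y b)).2 := by
  unfold lf
  rw [if_neg h.symm, if_pos rfl]

theorem lf_o (K : Equiv.Perm (Fin q × Fin q)) {a b v : Y} (h : v ≠ a) (h' : v ≠ b)
    (y : Y → Fin q) : lf K a b y v = y v := by
  unfold lf
  rw [if_neg h, if_neg h']

theorem lf_lf (K K' : Equiv.Perm (Fin q × Fin q)) {a b : Y} (h : a ≠ b) (y : Y → Fin q) :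
    lf K' a b (lf K a b y) = lf (K' * K) a b y := by
  funext v
  by_cases h1 : v = a
  · subst h1
    rw [lf_a, lf_a, lf_a, lf_b K h]
    rfl
  · by_cases h2 : v = b
    · subst h2
      rw [lf_b _ h, lf_b _ h, lf_a, lf_b _ h]
      rfl
    · rw [lf_o _ h1 h2, lf_o _ h1 h2, lf_o _ h1 h2]

theorem lf_one (a b : Y) (y : Y → Fin q) : lf 1 a b y = y := by
  funext v
  unfold lf
  by_cases h1 : v = a
  · rw [if_pos h1, h1]
    rfl
  · rw [if_neg h1]
    by_cases h2 : v = b
    · rw [if_pos h2, h2]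
      rfl
    · rw [if_neg h2]

/-- the local permutation along the points -/
def Hf (x : G → Y) (s : Equiv.Perm G) (K : Equiv.Perm (Fin q × Fin q))
    (p : G × (Y → Fin q)) : G × (Y → Fin q) :=
  if x p.1 ≠ x (s p.1) then (p.1, lf K (x p.1) (x (s p.1)) p.2) else p

theorem Hf_pos (x : G → Y) (s : Equiv.Perm G) (K : Equiv.Perm (Fin q × Fin q)) {g : G}
    (y : Y → Fin q) (h : x g ≠ x (s g)) : Hf x s K (g, y) = (g, lf K (x g) (x (s g)) y) :=
  if_pos h

theorem Hf_Hf (x : G → Y) (s : Equiv.Perm G) (K K' : Equiv.Perm (Fin q × Fin q))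
    (p : G × (Y → Fin q)) : Hf x s K' (Hf x s K p) = Hf x s (K' * K) p := by
  obtain ⟨g, y⟩ := p
  by_cases h : x g ≠ x (s g)
  · rw [Hf_pos _ _ _ _ h, Hf_pos _ _ _ _ h, Hf_pos _ _ _ _ h, lf_lf _ _ h]
  · have e : ∀ K : Equiv.Perm (Fin q × Fin q), Hf x s K (g, y) = (g, y) := fun K => if_neg h
    rw [e, e, e]

theorem Hf_one (x : G → Y) (s : Equiv.Perm G) (p : G × (Y → Fin q)) : Hf x s 1 p = p := by
  unfold Hf
  split_ifs with h
  · rw [lf_one]
  · rfl

/-- the permutation -/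
def HP (x : G → Y) (s : Equiv.Perm G) (K : Equiv.Perm (Fin q × Fin q)) :
    Equiv.Perm (G × (Y → Fin q)) where
  toFun := Hf x s K
  invFun := Hf x s K⁻¹
  left_inv p := by rw [Hf_Hf, inv_mul_cancel, Hf_one]
  right_inv p := by rw [Hf_Hf, mul_inv_cancel, Hf_one]

theorem HP_apply (x : G → Y) (s : Equiv.Perm G) (K : Equiv.Perm (Fin q × Fin q))
    (p : G × (Y → Fin q)) : HP x s K p = Hf x s K p := rfl

theorem HP_inv (x : G → Y) (s : Equiv.Perm G) (K : Equiv.Perm (Fin q × Fin q))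
    (p : G × (Y → Fin q)) : (HP x s K)⁻¹ p = Hf x s K⁻¹ p := rfl

/-- a permutation of the first coordinate -/
def GP (q : ℕ) (Y : Type) (s : Equiv.Perm G) : Equiv.Perm (G × (Y → Fin q)) :=
  Equiv.prodCongr s (Equiv.refl _)

theorem GP_apply (s : Equiv.Perm G) (g : G) (y : Y → Fin q) :
    GP q Y s (g, y) = (s g, y) := rfl

theorem GP_inv (s : Equiv.Perm G) (g : G) (y : Y → Fin q) :
    (GP q Y s)⁻¹ (g, y) = (s⁻¹ g, y) := rfl

theorem cnt1 [Fintype Y] (a : Y) (f : Fin q → ℕ) :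
    (∑ y : Y → Fin q, f (y a)) * q = (∑ u, f u) * Fintype.card (Y → Fin q) := by
  have e1 : (∑ y : Y → Fin q, f (y a)) = ∑ p : Fin q × ({j : Y // j ≠ a} → Fin q), f p.1 :=
    Fintype.sum_equiv (Equiv.funSplitAt a (Fin q)) _ _ (fun y => rfl)
  have e2 : Fintype.card (Y → Fin q) = q * Fintype.card ({j : Y // j ≠ a} → Fin q) := by
    rw [Fintype.card_congr (Equiv.funSplitAt a (Fin q)), Fintype.card_prod, Fintype.card_fin]
  rw [e1, e2, Fintype.sum_prod_type]
  simp only [Finset.sum_const, Finset.card_univ, smul_eq_mul]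
  rw [← Finset.mul_sum]
  ring

theorem cntG [Fintype Y] [Fintype G] (x : G → Y) (P : Fin q → Prop) [DecidablePred P] :
    (Finset.univ.filter (fun p : G × (Y → Fin q) => P (p.2 (x p.1)))).card * q =
      (Finset.univ.filter P).card * Fintype.card (G × (Y → Fin q)) := by
  rw [Finset.card_filter, Finset.card_filter, Fintype.sum_prod_type, Finset.sum_mul,
    Fintype.card_prod]
  have e : ∀ g : G, (∑ y : Y → Fin q, if P (y (x g)) then 1 else 0) * q =
      (∑ u, if P u then 1 else 0) * Fintype.card (Y → Fin q) := fun g =>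
    cnt1 (x g) (fun u => if P u then 1 else 0)
  rw [Finset.sum_congr rfl (fun g _ => e g), Finset.sum_const, Finset.card_univ, smul_eq_mul]
  ring

end

theorem st_UP (F : Type u) [Field F] (h1 : ST_FO) (h2 : ST_HH) (h3 : ST_CF) : ST_UP F := by
  classical
  intro η hη
  obtain ⟨N, hN⟩ := exists_nat_gt (2 / η)
  have hN0 : 0 < N := by
    rcases Nat.eq_zero_or_pos N with h | h
    · rw [h] at hN
      have : 0 < 2 / η := by positivity
      norm_num at hN
      linarith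
    · exact h
  obtain ⟨q, k, hq, hk, hqk, hsq⟩ := h3 N
  obtain ⟨K, A, hA0, hA1, hA2, hA3, hA4, hdis, hcov⟩ := h2 q k hk hqk
  obtain ⟨G, Y, _, _, _, _, _, s, t, x, badG, hbG, hx⟩ := h1 N hN0
  have hq0 : 0 < q := lt_of_lt_of_le hN0 hq
  have : Nonempty (Fin q) := ⟨⟨0, hq0⟩⟩
  obtain ⟨u0, hu0⟩ := Finset.card_le_one_iff_subset_singleton.1 hcov
  let bad : Finset (G × (Y → Fin q)) := (badG ×ˢ Finset.univ) ∪
    Finset.univ.filter (fun p : G × (Y → Fin q) => p.2 (x p.1) = u0.1)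
  let AA : G × (Y → Fin q) → F := fun p => if (p.2 (x p.1) : ℕ) < k then 1 else 0
  have hAA : ∀ z, AA z * AA z = AA z := by
    intro z
    show (if _ then (1 : F) else 0) * (if _ then (1 : F) else 0) = (if _ then (1 : F) else 0)
    split_ifs <;> simp
  have hcond : ∀ c, c ∉ bad →
      (GP q Y s) ((GP q Y t) ((GP q Y s)⁻¹ ((GP q Y t) ((GP q Y s) ((GP q Y t)⁻¹ c))))) =
        (GP q Y s)⁻¹ ((GP q Y t) ((GP q Y s) ((GP q Y t)⁻¹ ((GP q Y s) ((GP q Y t) c))))) ∧
      (GP q Y s) ((GP q Y t) ((HP x s K) c)) = (HP x s K) ((GP q Y s) ((GP q Y t) c)) ∧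
      AA ((GP q Y s) ((GP q Y t) c)) = AA c ∧
      AA ((GP q Y s)⁻¹ ((GP q Y t) c)) = AA ((GP q Y s)⁻¹ c) ∧
      AA ((GP q Y s)⁻¹ ((GP q Y s)⁻¹ ((GP q Y t) ((GP q Y s) ((GP q Y t)⁻¹ c))))) =
        AA ((GP q Y s)⁻¹ c) ∧
      AA ((GP q Y s)⁻¹ ((HP x s K) c)) = AA ((GP q Y s)⁻¹ c) ∧
      (∀ i j, i ≠ j → Pool.Agent.Helper51.FR.EW (GP q Y s) (HP x s K) AA i c *
        Pool.Agent.Helper51.FR.EW (GP q Y s) (HP x s K) AA j c = 0) ∧
      (Pool.Agent.Helper51.FR.EW (GP q Y s) (HP x s K) AA 0 c - 1) *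
      (Pool.Agent.Helper51.FR.EW (GP q Y s) (HP x s K) AA 1 c - 1) *
      (Pool.Agent.Helper51.FR.EW (GP q Y s) (HP x s K) AA 2 c - 1) *
      (Pool.Agent.Helper51.FR.EW (GP q Y s) (HP x s K) AA 3 c - 1) *
      (Pool.Agent.Helper51.FR.EW (GP q Y s) (HP x s K) AA 4 c - 1) = 0 := by
    rintro ⟨g, y⟩ hc
    have hc1 : g ∉ badG := fun h => hc (Finset.mem_union_left _
      (Finset.mem_product.2 ⟨h, Finset.mem_univ _⟩))
    have hc2 : y (x g) ≠ u0.1 := fun h => hc (Finset.mem_union_right _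
      (Finset.mem_filter.2 ⟨Finset.mem_univ _, h⟩))
    obtain ⟨g1, g2, g3, g4, g5, g6, g7, g8⟩ := hx g hc1
    have hAs : ∀ (g' : G) (y' : Y → Fin q), AA (g', y') =
      if (y' (x g') : ℕ) < k then 1 else 0 := fun _ _ => rfl
    have hH1 : ∀ K' : Equiv.Perm (Fin q × Fin q), AA (Hf x s K' (g, y)) =
        if ((K' (y (x g), y (x (s g)))).1 : ℕ) < k then 1 else 0 := by
      intro K'
      rw [Hf_pos _ _ _ _ g1, hAs, lf_a]
    have hH2 : ∀ K' : Equiv.Perm (Fin q × Fin q), AA ((GP q Y s) (Hf x s K' (g, y))) =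
        if ((K' (y (x g), y (x (s g)))).2 : ℕ) < k then 1 else 0 := by
      intro K'
      rw [Hf_pos _ _ _ _ g1, GP_apply, hAs, lf_b _ g1]
    have hE : ∀ i, Pool.Agent.Helper51.FR.EW (GP q Y s) (HP x s K) AA i (g, y) =
        if (y (x g), y (x (s g))) ∈ A i then 1 else 0 := by
      intro i
      generalize hw : (y (x g), y (x (s g))) = w at *
      fin_cases i
      · show AA (g, y) = if w ∈ A 0 then 1 else 0
        rw [hAs]
        refine if_congr ?_ rfl rfl
        rw [hA0, ← hw]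
      · show AA ((HP x s K)⁻¹ (g, y)) = if w ∈ A 1 then 1 else 0
        rw [HP_inv, hH1]
        refine if_congr ?_ rfl rfl
        rw [← hA0, ← hA1]
        rw [show K (K⁻¹ w) = w from Equiv.apply_symm_apply K w]
      · show AA ((HP x s K)⁻¹ ((HP x s K)⁻¹ (g, y))) = if w ∈ A 2 then 1 else 0
        rw [HP_inv, HP_inv, Hf_Hf, hH1]
        refine if_congr ?_ rfl rfl
        rw [← hA0, ← hA1, ← hA2]
        rw [show K (K ((K⁻¹ * K⁻¹) w)) = w from by
          rw [Equiv.Perm.mul_apply, show K (K⁻¹ (K⁻¹ w)) = K⁻¹ w from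
            Equiv.apply_symm_apply K _]
          exact Equiv.apply_symm_apply K w]
      · show AA ((HP x s K)⁻¹ ((HP x s K)⁻¹ ((HP x s K)⁻¹ (g, y)))) = if w ∈ A 3 then 1 else 0
        rw [HP_inv, HP_inv, HP_inv, Hf_Hf, Hf_Hf, hH1]
        refine if_congr ?_ rfl rfl
        rw [← hA0, ← hA1, ← hA2, ← hA3]
        have e : ∀ v, K (K⁻¹ v) = v := fun v => Equiv.apply_symm_apply K v
        simp only [Equiv.Perm.mul_apply, e]
      · show AA ((HP x s K)⁻¹ ((HP x s K)⁻¹ ((HP x s K)⁻¹ ((HP x s K)⁻¹ (g, y))))) *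
          AA ((GP q Y s) ((HP x s K)⁻¹ ((HP x s K)⁻¹ ((HP x s K)⁻¹ ((HP x s K)⁻¹ (g, y)))))) =
          if w ∈ A 4 then 1 else 0
        have e : ∀ v, K (K⁻¹ v) = v := fun v => Equiv.apply_symm_apply K v
        have e4 : w ∈ A 4 ↔ ((((K⁻¹ * K⁻¹ * K⁻¹ * K⁻¹) w).1 : ℕ) < k ∧
            (((K⁻¹ * K⁻¹ * K⁻¹ * K⁻¹) w).2 : ℕ) < k) := by
          rw [← hA4]
          simp only [Equiv.Perm.mul_apply, e]
        rw [HP_inv, HP_inv, HP_inv, HP_inv, Hf_Hf, Hf_Hf, Hf_Hf, hH1, hH2]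
        by_cases a1 : ((((K⁻¹ * K⁻¹ * K⁻¹ * K⁻¹) w).1 : ℕ) < k)
        · by_cases a2 : ((((K⁻¹ * K⁻¹ * K⁻¹ * K⁻¹) w).2 : ℕ) < k)
          · rw [if_pos a1, if_pos a2, if_pos (e4.2 ⟨a1, a2⟩), mul_one]
          · rw [if_neg a2, if_neg (fun h => a2 (e4.1 h).2), mul_zero]
        · rw [if_neg a1, if_neg (fun h => a1 (e4.1 h).1), zero_mul]
    refine ⟨?_, ?_, ?_, ?_, ?_, ?_, ?_, ?_⟩
    · simp only [GP_apply, GP_inv]
      rw [g8]
    · rw [HP_apply, HP_apply, Hf_pos _ _ _ _ g1, GP_apply, GP_apply, GP_apply, GP_apply,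
        Hf_pos _ _ _ _ (by rw [g4, g5]; exact g1), g4, g5]
    · rw [GP_apply, GP_apply, hAs, hAs, g4]
    · rw [GP_apply, GP_inv, GP_inv, hAs, hAs, g6]
    · simp only [GP_apply, GP_inv]
      rw [hAs, hAs, g7]
    · rw [HP_apply, Hf_pos _ _ _ _ g1, GP_inv, GP_inv, hAs, hAs, lf_o _ g2.symm g3.symm]
    · intro i j hij
      rw [hE, hE]
      by_cases a1 : (y (x g), y (x (s g))) ∈ A i
      · rw [if_neg (Finset.disjoint_left.1 (hdis i j hij) a1), mul_zero]
      · rw [if_neg a1, zero_mul]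
    · rw [hE, hE, hE, hE, hE]
      have hw : ∃ i, (y (x g), y (x (s g))) ∈ A i := by
        by_contra hno
        have h9 : (y (x g), y (x (s g))) ∈ Finset.univ \ (Finset.univ.biUnion A) := by
          rw [Finset.mem_sdiff, Finset.mem_biUnion]
          exact ⟨Finset.mem_univ _, fun ⟨i, _, hi⟩ => hno ⟨i, hi⟩⟩
        have h10 := Finset.mem_singleton.1 (hu0 h9)
        exact hc2 (congrArg Prod.fst h10)
      obtain ⟨i, hi⟩ := hw
      fin_cases i
      all_goals simp only [Fin.zero_eta, Fin.mk_one, Fin.reduceFinMk] at hi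
      all_goals rw [if_pos hi]
      all_goals ring
  obtain ⟨z, hz1, hz2, bad', hb1, hz3, hz4⟩ := Pool.Agent.Helper51.FR.core (GP q Y s) (GP q Y t)
    (HP x s K) AA bad hAA hcond
  have hq0' : (0 : ℝ) < q := by exact_mod_cast hq0
  have hN0' : (0 : ℝ) < N := by exact_mod_cast hN0
  refine ⟨Fintype.card (G × (Y → Fin q)), Fintype.card_pos, z, hz1, ?_, bad', ?_, hz3, hz4⟩
  · have c1 := cntG x (fun u : Fin q => (u : ℕ) < k)
    have c2 : Nat.card {c : G × (Y → Fin q) // AA c ≠ 0} =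
        (Finset.univ.filter (fun p : G × (Y → Fin q) => (p.2 (x p.1) : ℕ) < k)).card := by
      rw [Nat.card_eq_fintype_card, Fintype.card_subtype]
      congr 1
      ext p
      simp only [Finset.mem_filter, Finset.mem_univ, true_and]
      show (if (p.2 (x p.1) : ℕ) < k then (1 : F) else 0) ≠ 0 ↔ _
      split_ifs with h
      · simp [h]
      · simp [h]
    have c3 : (Finset.univ.filter (fun u : Fin q => (u : ℕ) < k)).card ≤ k := by
      have := Finset.card_le_card_of_injOn (s := Finset.univ.filter (fun u : Fin q => (u : ℕ) < k))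
        (t := Finset.range k) (fun u => (u : ℕ)) (by
          intro u hu
          have := (Finset.mem_filter.1 hu).2
          simpa using this) (fun u _ v _ h => Fin.ext h)
      rwa [Finset.card_range] at this
    rw [c2] at hz2
    have c4 : (z .e).rank * q ≤ k * Fintype.card (G × (Y → Fin q)) :=
      (Nat.mul_le_mul_right _ hz2).trans (c1.le.trans (Nat.mul_le_mul_right _ c3))
    have c5 : ((z .e).rank : ℝ) * q ≤ k * (Fintype.card (G × (Y → Fin q)) : ℕ) := by
      exact_mod_cast c4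
    have c6 : ((z .e).rank : ℝ) ≤ (k : ℝ) / q * (Fintype.card (G × (Y → Fin q)) : ℕ) := by
      rw [div_mul_eq_mul_div, le_div_iff₀ hq0']
      exact c5
    exact c6.trans (mul_le_mul_of_nonneg_right hsq (Nat.cast_nonneg _))
  · rw [hb1]
    have c1 := cntG x (fun u : Fin q => u = u0.1)
    have c2 : (Finset.univ.filter (fun u : Fin q => u = u0.1)).card = 1 := by
      rw [Finset.filter_eq' Finset.univ u0.1, if_pos (Finset.mem_univ _), Finset.card_singleton]
    rw [c2, one_mul] at c1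
    have c3 : bad.card ≤ badG.card * Fintype.card (Y → Fin q) +
        (Finset.univ.filter (fun p : G × (Y → Fin q) => p.2 (x p.1) = u0.1)).card := by
      refine (Finset.card_union_le _ _).trans ?_
      rw [Finset.card_product, Finset.card_univ]
    generalize (Finset.univ.filter (fun p : G × (Y → Fin q) => p.2 (x p.1) = u0.1)).card = C2 at *
    rw [Fintype.card_prod] at c1 ⊢
    generalize Fintype.card (Y → Fin q) = M at *
    generalize Fintype.card G = Gc at *
    have d1 : (badG.card : ℝ) * N ≤ Gc := by exact_mod_cast hbG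
    have d2 : (C2 : ℝ) * q = Gc * M := by exact_mod_cast c1
    have d3 : (bad.card : ℝ) ≤ badG.card * M + C2 := by exact_mod_cast c3
    have d4 : (N : ℝ) ≤ q := by exact_mod_cast hq
    have d5 : (C2 : ℝ) * N ≤ Gc * M := by
      rw [← d2]
      exact mul_le_mul_of_nonneg_left d4 (Nat.cast_nonneg _)
    have d6 : (bad.card : ℝ) * N ≤ 2 * (Gc * M) := by
      have e1 : (bad.card : ℝ) * N ≤ (badG.card * M + C2) * N :=
        mul_le_mul_of_nonneg_right d3 hN0'.le
      have e2 : (badG.card : ℝ) * N * M ≤ Gc * M :=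
        mul_le_mul_of_nonneg_right d1 (Nat.cast_nonneg _)
      nlinarith
    have d7 : 2 ≤ η * N := by
      rw [div_lt_iff₀ hη] at hN
      linarith
    have d8 : (0 : ℝ) ≤ Gc * M := by positivity
    have d9 : (bad.card : ℝ) * N ≤ (η * (Gc * M)) * N := by
      refine d6.trans ?_
      nlinarith
    have d10 := le_of_mul_le_mul_right d9 hN0'
    push_cast
    exact d10

end Pool.Agent.Helper39.FR
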